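import Pool.Agent.PFD.StmtsD3

/-!
Squad PFD, block D3, row TSR (helper18): the invariant form on the graded lift `R1`.
-/

set_option autoImplicit false

open scoped BigOperators

noncomputable section

namespace Pool.Agent.PFD.D3.H18

open MvPolynomial

/-- complementary exponents -/
private theorem exp_aux {I : Type} [Fintype I] (n : I → ℕ) (α β : ∀ i, Fin (n i))
    (hs : ∑ i, ((α i : ℕ) + (β i : ℕ)) = ∑ i, (n i - 1)) :
    (∀ i, (α i : ℕ) + (β i : ℕ) = n i - 1) ∨ ∃ i, n i ≤ (α i : ℕ) + (β i : ℕ) := by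
  by_cases h : ∃ i, n i ≤ (α i : ℕ) + (β i : ℕ)
  · exact Or.inr h
  · left
    have h1 : ∀ i ∈ (Finset.univ : Finset I), (α i : ℕ) + (β i : ℕ) ≤ n i - 1 := by
      intro i _
      have : ¬ n i ≤ (α i : ℕ) + (β i : ℕ) := fun hh => h ⟨i, hh⟩
      omega
    intro i
    exact (Finset.sum_eq_sum_iff_of_le h1).1 hs i (Finset.mem_univ i)

theorem tsr (hPac : PacStmt) (hGrm : GrmStmt) (hFts : FtsStmt) : TsrStmt := by
  intro ℓ _ R F V E B R1 _ _ _ _ _ _ _ _ _ c φ J _ _ Z D _ _ q act rho hE hact hx hrho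
  classical
  obtain ⟨-, -, -, hdeg⟩ := hPac R E B J D
  -- the reduction of the basis
  have hbs : ∀ α : (∀ i : Σ b, J b, Fin (ℓ ^ Z.a i.1)), rho.q (q.b α) = Z.bs α := by
    intro α
    rw [q.b_eq, Z.bs_eq, PFC.B3.mo, map_prod, map_prod]
    apply Finset.prod_congr rfl
    intro i _
    rw [map_pow, map_pow, hx]
  have hq0 : ∀ i : Σ b, J b, 0 < ℓ ^ Z.a i.1 := fun i => pow_pos (Fact.out : ℓ.Prime).pos _
  let top : ∀ i : Σ b, J b, Fin (ℓ ^ Z.a i.1) := fun i => ⟨ℓ ^ Z.a i.1 - 1, Nat.sub_lt (hq0 i) one_pos⟩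
  have htop : ∀ i, ((top i : Fin _) : ℕ) = ℓ ^ Z.a i.1 - 1 := fun i => rfl
  have hpi : c.κ c.π = 0 := (c.ker c.π).2 ⟨1, (mul_one _).symm⟩
  -- the inverse of |E|
  have hEu : IsUnit ((Fintype.card E : ℕ) : R) := by
    apply c.loc
    rw [map_natCast]
    exact hE
  obtain ⟨u, hu⟩ := hEu
  have hm : ((Fintype.card E : ℕ) : R) * ((u⁻¹ : Rˣ) : R) = 1 := by rw [← hu, Units.mul_inv]
  have hmκ : ((Fintype.card E : ℕ) : F) * c.κ ((u⁻¹ : Rˣ) : R) = 1 := by
    have := congrArg c.κ hm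
    rw [map_mul, map_natCast, map_one] at this
    exact this
  let t0 : R1 →ₗ[R] R := q.b.coord top
  let t : R1 →ₗ[R] R := ((u⁻¹ : Rˣ) : R) • ∑ e : E, t0 ∘ₗ (act e).toLinearMap
  have ht : ∀ x, t x = ((u⁻¹ : Rˣ) : R) * ∑ e : E, t0 (act e x) := by
    intro x
    show (((u⁻¹ : Rˣ) : R) • ∑ e : E, t0 ∘ₗ (act e).toLinearMap) x = _
    rw [LinearMap.smul_apply, LinearMap.sum_apply, smul_eq_mul]
    rfl
  have htinv : ∀ g x, t (act g x) = t x := by
    intro g x
    rw [ht, ht]
    congr 1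
    have h1 := Equiv.sum_comp (Equiv.mulRight g) (fun e => t0 (act e x))
    rw [← h1]
    apply Finset.sum_congr rfl
    intro e _
    rw [Equiv.coe_mulRight, map_mul]
    rfl
  have htdeg : ∀ d (p : MvPolynomial (Σ b, J b) R), p.IsHomogeneous d →
      d ≠ ∑ i : Σ b, J b, (ℓ ^ Z.a i.1 - 1) → t (q.pm p) = 0 := by
    intro d p hp hd
    rw [ht]
    have : ∀ e ∈ (Finset.univ : Finset E), t0 (act e (q.pm p)) = 0 := by
      intro e _
      rw [hact]
      exact q.b_deg d _ (hdeg e p d hp) top (fun h => hd h.symm)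
    rw [Finset.sum_eq_zero this, mul_zero]
  -- values on multiples of π
  have htπ : ∀ x, c.κ (t (c.π • x)) = 0 := by
    intro x
    rw [map_smul, smul_eq_mul, map_mul, hpi, zero_mul]
  have ht0π : ∀ x, c.κ (t0 (c.π • x)) = 0 := by
    intro x
    rw [map_smul, smul_eq_mul, map_mul, hpi, zero_mul]
  -- the socle
  have hxz : ∀ i, Z.x i * Z.bs top = 0 := by
    intro i
    rw [Z.bs_eq, ← Finset.mul_prod_erase Finset.univ _ (Finset.mem_univ i), ← mul_assoc,
      htop, ← pow_succ', Nat.sub_add_cancel (hq0 i), Z.x0, zero_mul]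
  have hbz : ∀ α : (∀ i : Σ b, J b, Fin (ℓ ^ Z.a i.1)), (∃ i, (α i : ℕ) ≠ 0) →
      Z.bs α * Z.bs top = 0 := by
    rintro α ⟨i, hi⟩
    rw [Z.bs_eq α, ← Finset.prod_erase_mul Finset.univ _ (Finset.mem_univ i), mul_assoc]
    obtain ⟨k, hk⟩ := Nat.exists_eq_succ_of_ne_zero hi
    rw [hk, Nat.succ_eq_add_one, pow_succ, mul_assoc, hxz, mul_zero, mul_zero]
  let aug : MonoidAlgebra F V →ₐ[F] F := MonoidAlgebra.lift F F V (1 : V →* F)
  have haugV : ∀ v, aug (MonoidAlgebra.of F V v) = 1 := by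
    intro v
    show (MonoidAlgebra.lift F F V (1 : V →* F)) (MonoidAlgebra.of F V v) = 1
    rw [MonoidAlgebra.lift_of]
    rfl
  have haugx : ∀ i, aug (Z.x i) = 0 := by
    intro i
    have h1 := congrArg aug (Z.x0 i)
    rw [map_pow, map_zero] at h1
    exact pow_eq_zero_iff (hq0 i).ne' |>.1 h1
  have haugb : ∀ α : (∀ i : Σ b, J b, Fin (ℓ ^ Z.a i.1)), (∃ i, (α i : ℕ) ≠ 0) →
      aug (Z.bs α) = 0 := by
    rintro α ⟨i, hi⟩
    rw [Z.bs_eq α, map_prod]
    apply Finset.prod_eq_zero (Finset.mem_univ i)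
    rw [map_pow, haugx, zero_pow hi]
  have haug1 : ∀ α : (∀ i : Σ b, J b, Fin (ℓ ^ Z.a i.1)), (¬ ∃ i, (α i : ℕ) ≠ 0) →
      Z.bs α = 1 := by
    intro α h
    push Not at h
    rw [Z.bs_eq α]
    apply Finset.prod_eq_one
    intro i _
    rw [h i, pow_zero]
  have hall : ∀ y, y * Z.bs top = aug y • Z.bs top := by
    intro y
    have hy := Z.bs.sum_repr y
    have h1 : ∀ α, Z.bs α * Z.bs top = aug (Z.bs α) • Z.bs top := by
      intro α
      by_cases h : ∃ i, (α i : ℕ) ≠ 0
      · rw [hbz α h, haugb α h, zero_smul]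
      · rw [haug1 α h, map_one, one_mul, one_smul]
    rw [← hy, Finset.sum_mul, map_sum, Finset.sum_smul]
    apply Finset.sum_congr rfl
    intro α _
    rw [smul_mul_assoc, h1, map_smul, smul_eq_mul, mul_smul]
  have hsoc : ∀ e, acV F φ e (Z.bs top) = Z.bs top := by
    apply (hFts F V E φ (Z.bs top) _).2
    intro v
    rw [hall, haugV, one_smul]
  -- the value at the top
  have htt : c.κ (t (q.b top)) = 1 := by
    rw [ht, map_mul, map_sum]
    have h1 : ∀ e ∈ (Finset.univ : Finset E), c.κ (t0 (act e (q.b top))) = 1 := by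
      intro e _
      have h2 : rho.q (act e (q.b top) - q.b top) = 0 := by
        rw [map_sub, hrho, hbs, hsoc, sub_self]
      obtain ⟨y, hy⟩ := rho.ker _ h2
      have h3 : act e (q.b top) = q.b top + c.π • y := by rw [← hy]; abel
      rw [h3, map_add, map_add, ht0π, add_zero]
      show c.κ (q.b.coord top (q.b top)) = 1
      rw [Module.Basis.coord_apply, Module.Basis.repr_self, Finsupp.single_eq_same, map_one]
    rw [Finset.sum_congr rfl h1, Finset.sum_const, Finset.card_univ, nsmul_eq_mul, mul_one,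
      mul_comm]
    exact hmκ
  -- the Gram matrix modulo π
  have hrev : ∀ (α : ∀ i : Σ b, J b, Fin (ℓ ^ Z.a i.1)) i,
      ((Fin.rev (α i) : Fin _) : ℕ) = ℓ ^ Z.a i.1 - 1 - α i := by
    intro α i
    rw [Fin.val_rev]
    omega
  let p : (∀ i : Σ b, J b, Fin (ℓ ^ Z.a i.1)) → (∀ i : Σ b, J b, Fin (ℓ ^ Z.a i.1)) :=
    fun α i => Fin.rev (α i)
  have hp : Function.Bijective p := by
    apply Function.Involutive.bijective
    intro α
    funext i
    exact Fin.rev_rev _
  have hgram : ∀ α β, c.κ (t (q.b α * q.b β)) = if β = p α then 1 else 0 := by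
    intro α β
    have hprod : q.b α * q.b β =
        q.pm (∏ i, (X i : MvPolynomial (Σ b, J b) R) ^ ((α i : ℕ) + (β i : ℕ))) := by
      rw [q.b_eq, q.b_eq, ← map_mul, PFC.B3.mo, PFC.B3.mo, ← Finset.prod_mul_distrib]
      congr 1
      apply Finset.prod_congr rfl
      intro i _
      rw [pow_add]
    have hhom : (∏ i, (X i : MvPolynomial (Σ b, J b) R) ^ ((α i : ℕ) + (β i : ℕ))).IsHomogeneous
        (∑ i, ((α i : ℕ) + (β i : ℕ))) := by
      apply IsHomogeneous.prod
      intro i _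
      have h1 := (isHomogeneous_X R i).pow ((α i : ℕ) + (β i : ℕ))
      rw [one_mul] at h1
      exact h1
    by_cases hd : ∑ i, ((α i : ℕ) + (β i : ℕ)) = ∑ i : Σ b, J b, (ℓ ^ Z.a i.1 - 1)
    · rcases exp_aux (fun i : Σ b, J b => ℓ ^ Z.a i.1) α β hd with h | ⟨i, hi⟩
      · have h1 : β = p α := by
          funext i
          apply Fin.ext
          show (β i : ℕ) = ((Fin.rev (α i) : Fin _) : ℕ)
          rw [hrev]
          have := h i
          omega
        rw [if_pos h1]
        have h2 : q.b α * q.b β = q.b top := by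
          rw [hprod, q.b_eq top, PFC.B3.mo]
          congr 1
          apply Finset.prod_congr rfl
          intro i _
          rw [h i]
        rw [h2, htt]
      · have h1 : β ≠ p α := by
          intro hh
          have h2 : (β i : ℕ) = ℓ ^ Z.a i.1 - 1 - α i := by
            rw [hh]
            exact hrev α i
          have h3 := (α i).2
          have h4 := hq0 i
          have h5 : ℓ ^ Z.a i.1 ≤ (α i : ℕ) + (β i : ℕ) := hi
          omega
        rw [if_neg h1]
        have h2 : rho.q (q.b α * q.b β) = 0 := by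
          rw [hprod, map_prod, map_prod]
          apply Finset.prod_eq_zero (Finset.mem_univ i)
          rw [map_pow, map_pow, hx, ← Nat.sub_add_cancel hi, pow_add, Z.x0, mul_zero]
        obtain ⟨y, hy⟩ := rho.ker _ h2
        rw [hy]
        exact htπ y
    · have h1 : β ≠ p α := by
        intro hh
        apply hd
        apply Finset.sum_congr rfl
        intro i _
        have h2 : (β i : ℕ) = ℓ ^ Z.a i.1 - 1 - α i := by
          rw [hh]
          exact hrev α i
        have h3 := (α i).2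
        omega
      rw [if_neg h1, hprod, htdeg _ _ hhom hd, map_zero]
  obtain ⟨y', hy1, hy2⟩ := hGrm R F R1 _ c q.b t p hp hgram
  exact ⟨t, y', hy1, hy2, htinv, htdeg⟩

end Pool.Agent.PFD.D3.H18
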