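import Pool.Agent.PFD.StmtsD3
import Pool.Agent.Helper10_PFD.REP
import Pool.Agent.Helper48_PFD.COO
import Pool.Agent.Helper35_PFD.PAC
import Pool.Agent.Helper75_PFD.REL
import Pool.Agent.Helper1_PFD.GBJ
import Pool.Agent.Helper60_PFD.GBS
import Pool.Agent.Helper17_PFD.QUA
import Pool.Agent.Helper86_PFD.Rho
import Pool.Agent.Helper63_PFD.ACR
import Pool.Agent.Helper90_PFD.EUD
import Pool.Agent.Helper70_PFD.EPN
import Pool.Agent.Helper41_PFD.GRM
import Pool.Agent.Helper95_PFD.FTS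
import Pool.Agent.Helper18_PFD.TSR
import Pool.Agent.Helper70_PFD.SGM
import Pool.Agent.Helper76_PFD.GLX
import Pool.Agent.Helper65_PFD.RSU
import Pool.Agent.Helper19_PFD.ACW
import Pool.Agent.Helper35_PFD.FBW
import Pool.Agent.Helper84_PFD.TSW
import Pool.Agent.Helper25_PFD.DVW
import Pool.Agent.Helper53_PFD.NLW
import Pool.Agent.Helper75_PFD.ANW
import Pool.Agent.Helper31_PFD.SOX
import Pool.Agent.Helper65_PFD.CPB
import Pool.Agent.Helper44_PFD.CPF
import Pool.Agent.Helper91_PFD.CPT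
import Pool.Agent.Helper51_PFD.CPE
import Pool.Agent.Helper60_PFD.CPN
import Pool.Agent.Helper91_PFD.CPZ
import Pool.Agent.Helper13_PFD.BOX
import Pool.Agent.Helper52_PFD.WIT
import Pool.Agent.Helper92_PFC.SST
import Pool.Agent.Helper47_PFC.SPN
import Pool.Agent.Helper20_PFC.CNT
import Pool.Agent.Helper81_PFC.NKY
import Pool.Agent.Helper49_PFD.UNG
import Pool.Agent.Helper10_PFD.Sug

/-!
Squad PFD, block D3 (helper18): assembly, the output `BoxStmt`, closed.
-/

set_option autoImplicit false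

namespace Pool.Agent.PFD.D3.H18

theorem glx : GlxStmt :=
  H76.glx
    (Pool.Agent.PFD.H48.coo Pool.Agent.PFC.H92.avg Pool.Agent.PFC.B3.H47.spn
      Pool.Agent.PFC.B3.H20.cnt Pool.Agent.PFC.B3.H81.nky)
    (H17.qua (H10.rep Pool.Agent.PFD.D2.H10.sug) (H75.rel H35.pac)
      (H60.gbs (H1.gbj Pool.Agent.PFD.D2.H49.ung)))
    H86.rho (H63.acr H35.pac) (H90.eud H35.pac) H70.epn
    (tsr H35.pac H41.grm Pool.Agent.PFD.H95.fts) (H70.sgm Pool.Agent.PFD.H95.fts)

theorem sox' (hA : AnwStmt) : SoxStmt :=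
  H31.sox H65.rsu glx H19.acw H35.fbw H84.tsw Pool.Agent.PFD.H25.dvw Pool.Agent.PFD.H53.nlw hA

theorem box' (hA : AnwStmt) : BoxStmt :=
  Pool.Agent.PFD.H13.box (sox' hA) H65.cpb H44.cpf H91.cpt H51.cpe H60.cpn H91.cpz

theorem sox : SoxStmt := sox' H75.anw

theorem box : BoxStmt := box' H75.anw

end Pool.Agent.PFD.D3.H18
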